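import Mathlib

/-!
# Project RZ, module EQW: elementary part (partial summation, sums of symbols)
-/

set_option autoImplicit false

namespace Pool.Agent.L0h64.RZ

open Finset

/-- partial summation -/
lemma abel_aux (g E : ℕ → ℝ) (ε : ℝ) (a : ℕ) (k : ℕ)
    (hg : ∀ n, a < n → n < a + 1 + k → g (n + 1) ≤ g n)
    (hE : ∀ n, a ≤ n → n ≤ a + 1 + k → |E n| ≤ ε * n) (hga : 0 ≤ g (a + 1)) :
    |∑ n ∈ Ioc a (a + 1 + k), g n * (E n - E (n - 1)) - g (a + 1 + k) * E (a + 1 + k)| ≤
      ε * (∑ n ∈ Ioc a (a + 1 + k), g n - g (a + 1 + k) * ((a + 1 + k : ℕ) : ℝ) +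
        2 * (a * g (a + 1))) := by
  induction k with
  | zero =>
    have h1 : Ioc a (a + 1 + 0) = {a + 1} := by
      ext x
      simp only [mem_Ioc, mem_singleton]
      omega
    rw [h1, sum_singleton, sum_singleton]
    simp only [add_zero, Nat.add_sub_cancel]
    have h2 : g (a + 1) * (E (a + 1) - E a) - g (a + 1) * E (a + 1) = -(g (a + 1) * E a) := by ring
    rw [h2, abs_neg, abs_mul, abs_of_nonneg hga]
    have h3 := mul_le_mul_of_nonneg_left (hE a le_rfl (by omega)) hga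
    refine h3.trans (le_of_eq ?_)
    push_cast
    ring
  | succ k ih =>
    have ih' := ih (fun n h1 h2 => hg n h1 (by omega)) (fun n h1 h2 => hE n h1 (by omega))
    have h1 : Ioc a (a + 1 + (k + 1)) = insert (a + 1 + k + 1) (Ioc a (a + 1 + k)) := by
      ext x
      simp only [mem_Ioc, mem_insert]
      omega
    have h2 : (a + 1 + k + 1) ∉ Ioc a (a + 1 + k) := by
      simp only [mem_Ioc]
      omega
    rw [h1, sum_insert h2, sum_insert h2]
    have h3 : a + 1 + (k + 1) = a + 1 + k + 1 := by ring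
    rw [h3, Nat.add_sub_cancel]
    have h4 := hg (a + 1 + k) (by omega) (by omega)
    have h5 := hE (a + 1 + k) (by omega) (by omega)
    set m := a + 1 + k with hm
    have h6 : g (m + 1) * (E (m + 1) - E m) + ∑ n ∈ Ioc a m, g n * (E n - E (n - 1)) -
        g (m + 1) * E (m + 1) =
        (∑ n ∈ Ioc a m, g n * (E n - E (n - 1)) - g m * E m) + (g m - g (m + 1)) * E m := by ring
    rw [h6]
    refine (abs_add_le _ _).trans ?_
    rw [abs_mul, abs_of_nonneg (by linarith : 0 ≤ g m - g (m + 1))]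
    have h7 := mul_le_mul_of_nonneg_left h5 (by linarith : 0 ≤ g m - g (m + 1))
    refine (add_le_add ih' h7).trans (le_of_eq ?_)
    push_cast
    ring

lemma abel_bd (g E : ℕ → ℝ) (ε : ℝ) (a b : ℕ) (hab : a < b)
    (hg : ∀ n, a < n → n < b → g (n + 1) ≤ g n) (hg0 : ∀ n, a < n → n ≤ b → 0 ≤ g n)
    (hE : ∀ n, a ≤ n → n ≤ b → |E n| ≤ ε * n) :
    |∑ n ∈ Ioc a b, g n * (E n - E (n - 1))| ≤
      ε * (∑ n ∈ Ioc a b, g n + 2 * (a * g (a + 1))) := by
  obtain ⟨k, rfl⟩ : ∃ k, b = a + 1 + k := ⟨b - (a + 1), by omega⟩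
  have h1 := abel_aux g E ε a k hg hE (hg0 _ (by omega) (by omega))
  have h2 := mul_le_mul_of_nonneg_left (hE (a + 1 + k) (by omega) le_rfl)
    (hg0 (a + 1 + k) (by omega) le_rfl)
  have h3 : ∑ n ∈ Ioc a (a + 1 + k), g n * (E n - E (n - 1)) =
      (∑ n ∈ Ioc a (a + 1 + k), g n * (E n - E (n - 1)) - g (a + 1 + k) * E (a + 1 + k)) +
      g (a + 1 + k) * E (a + 1 + k) := by ring
  rw [h3]
  refine (abs_add_le _ _).trans ?_
  rw [abs_mul, abs_of_nonneg (hg0 (a + 1 + k) (by omega) le_rfl)]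
  refine (add_le_add h1 h2).trans (le_of_eq ?_)
  ring

/-- `1 / (n log n)` -/
noncomputable def gl (n : ℕ) : ℝ := 1 / (n * Real.log n)

lemma log_pos' {n : ℕ} (h : 2 ≤ n) : 0 < Real.log n :=
  Real.log_pos (by exact_mod_cast h)

lemma gl_nonneg (n : ℕ) : 0 ≤ gl n := by
  unfold gl
  have := Real.log_natCast_nonneg n
  positivity

lemma gl_anti {n : ℕ} (h : 2 ≤ n) : gl (n + 1) ≤ gl n := by
  unfold gl
  have h1 := log_pos' h
  have h2 : (0 : ℝ) < n := by positivity
  apply one_div_le_one_div_of_le (by positivity)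
  have h3 : Real.log n ≤ Real.log ((n + 1 : ℕ) : ℝ) := by
    apply Real.log_le_log h2
    push_cast
    linarith
  apply mul_le_mul _ h3 h1.le (by positivity)
  push_cast
  linarith

lemma log_sub_le {x y : ℝ} (hx : 0 < x) (hy : 0 < y) : Real.log x - Real.log y ≤ (x - y) / y := by
  rw [← Real.log_div hx.ne' hy.ne']
  have h := Real.log_le_sub_one_of_pos (div_pos hx hy)
  refine h.trans (le_of_eq ?_)
  field_simp

lemma gl_lower {n : ℕ} (h : 2 ≤ n) :
    Real.log (Real.log ((n + 1 : ℕ) : ℝ)) - Real.log (Real.log n) ≤ gl n := by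
  have h1 := log_pos' h
  have h1' := log_pos' (by omega : 2 ≤ n + 1)
  have h2 : (0 : ℝ) < n := by positivity
  have h3 : (0 : ℝ) < ((n + 1 : ℕ) : ℝ) := by positivity
  refine (log_sub_le h1' h1).trans ?_
  have h4 := log_sub_le h3 h2
  have h5 : (((n + 1 : ℕ) : ℝ) - n) / n = 1 / n := by
    push_cast
    congr 1
    ring
  rw [h5] at h4
  unfold gl
  rw [div_le_div_iff₀ h1 (by positivity)]
  have h6 := mul_le_mul_of_nonneg_right h4 (mul_pos h2 h1).le
  refine h6.trans (le_of_eq ?_)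
  field_simp

lemma gl_upper {n : ℕ} (h : 2 ≤ n) :
    gl (n + 1) ≤ Real.log (Real.log ((n + 1 : ℕ) : ℝ)) - Real.log (Real.log n) := by
  have h1 := log_pos' h
  have h1' := log_pos' (by omega : 2 ≤ n + 1)
  have h2 : (0 : ℝ) < n := by positivity
  have h3 : (0 : ℝ) < ((n + 1 : ℕ) : ℝ) := by positivity
  have a1 := log_sub_le h1 h1'
  have a2 := log_sub_le h2 h3
  have h5 : ((n : ℝ) - ((n + 1 : ℕ) : ℝ)) / ((n + 1 : ℕ) : ℝ) = - (1 / ((n + 1 : ℕ) : ℝ)) := by
    push_cast
    field_simp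
    ring
  rw [h5] at a2
  have h6 : gl (n + 1) = (1 / ((n + 1 : ℕ) : ℝ)) / Real.log ((n + 1 : ℕ) : ℝ) := by
    unfold gl
    field_simp
  rw [h6]
  have h7 : (1 / ((n + 1 : ℕ) : ℝ)) / Real.log ((n + 1 : ℕ) : ℝ) ≤
      (Real.log ((n + 1 : ℕ) : ℝ) - Real.log n) / Real.log ((n + 1 : ℕ) : ℝ) := by
    apply div_le_div_of_nonneg_right _ h1'.le
    linarith
  refine h7.trans ?_
  have h8 : (Real.log n - Real.log ((n + 1 : ℕ) : ℝ)) / Real.log ((n + 1 : ℕ) : ℝ) =
    - ((Real.log ((n + 1 : ℕ) : ℝ) - Real.log n) / Real.log ((n + 1 : ℕ) : ℝ)) := by ring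
  rw [h8] at a1
  linarith

lemma gl_sum_lower (a k : ℕ) (ha : 1 ≤ a) :
    Real.log (Real.log ((a + k + 1 : ℕ) : ℝ)) - Real.log (Real.log ((a + 1 : ℕ) : ℝ)) ≤
      ∑ n ∈ Ioc a (a + k), gl n := by
  induction k with
  | zero => simp
  | succ k ih =>
    have h1 : Ioc a (a + (k + 1)) = insert (a + k + 1) (Ioc a (a + k)) := by
      ext x
      simp only [mem_Ioc, mem_insert]
      omega
    have h2 : (a + k + 1) ∉ Ioc a (a + k) := by
      simp only [mem_Ioc]
      omega
    rw [h1, sum_insert h2]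
    have h3 := gl_lower (n := a + k + 1) (by omega)
    have h4 : a + (k + 1) + 1 = a + k + 1 + 1 := by ring
    rw [h4]
    linarith

lemma gl_sum_upper (a k : ℕ) (ha : 2 ≤ a) :
    ∑ n ∈ Ioc a (a + k), gl n ≤
      Real.log (Real.log ((a + k : ℕ) : ℝ)) - Real.log (Real.log (a : ℝ)) := by
  induction k with
  | zero => simp
  | succ k ih =>
    have h1 : Ioc a (a + (k + 1)) = insert (a + k + 1) (Ioc a (a + k)) := by
      ext x
      simp only [mem_Ioc, mem_insert]
      omega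
    have h2 : (a + k + 1) ∉ Ioc a (a + k) := by
      simp only [mem_Ioc]
      omega
    rw [h1, sum_insert h2]
    have h3 := gl_upper (n := a + k) (by omega)
    have h4 : a + (k + 1) = a + k + 1 := by ring
    rw [h4]
    linarith

/-- the von Mangoldt function at the primes -/
noncomputable def lq (n : ℕ) : ℝ := if n.Prime then Real.log n else 0

/-- the weighted sum over the primes -/
noncomputable def th (f : ℕ → ℝ) (n : ℕ) : ℝ := ∑ m ∈ Icc 1 n, lq m * f m

/-- the reciprocal sum from the weighted sum -/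
lemma recip (f : ℕ → ℝ) (c ε : ℝ) (a b : ℕ) (ha : 2 ≤ a) (hab : a < b)
    (hE : ∀ n, a ≤ n → n ≤ b → |th f n - c * n| ≤ ε * n) :
    |∑ l ∈ (Ioc a b).filter Nat.Prime, f l / l - c * ∑ n ∈ Ioc a b, gl n| ≤
      ε * (∑ n ∈ Ioc a b, gl n + 2 * (a * gl (a + 1))) := by
  have h1 := abel_bd gl (fun n => th f n - c * n) ε a b hab (fun n h1 _ => gl_anti (by omega))
    (fun n _ _ => gl_nonneg n) hE
  have h2 : ∑ n ∈ Ioc a b, gl n * ((th f n - c * n) - (th f (n - 1) - c * ((n - 1 : ℕ) : ℝ))) =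
      ∑ l ∈ (Ioc a b).filter Nat.Prime, f l / l - c * ∑ n ∈ Ioc a b, gl n := by
    rw [sum_filter, mul_sum, ← sum_sub_distrib]
    apply sum_congr rfl
    intro n hn
    rw [mem_Ioc] at hn
    obtain ⟨m, rfl⟩ : ∃ m, n = m + 1 := ⟨n - 1, by omega⟩
    have h3 : th f (m + 1) = th f m + lq (m + 1) * f (m + 1) := by
      unfold th
      rw [Finset.sum_Icc_succ_top (by omega)]
    rw [Nat.add_sub_cancel, h3]
    have h4 : gl (m + 1) * lq (m + 1) = if (m + 1).Prime then 1 / ((m + 1 : ℕ) : ℝ) else 0 := by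
      unfold lq
      split_ifs with hp
      · unfold gl
        have h5 := log_pos' hp.two_le
        have h6 : (0 : ℝ) < ((m + 1 : ℕ) : ℝ) := by positivity
        field_simp
      · rw [mul_zero]
    have h5 : gl (m + 1) * ((th f m + lq (m + 1) * f (m + 1) - c * ((m + 1 : ℕ) : ℝ)) -
        (th f m - c * (m : ℝ))) = (gl (m + 1) * lq (m + 1)) * f (m + 1) - c * gl (m + 1) := by
      push_cast
      ring
    rw [h5, h4]
    split_ifs
    · ring
    · ring
  rw [← h2]
  exact h1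

/-! ### sums over residue classes -/

lemma sum_classes (Λ f : ℕ → ℝ) (q n : ℕ) (hq : 1 ≤ q) (hf : ∀ m, f m = f (m % q)) :
    ∑ m ∈ Icc 1 n, Λ m * f m =
      ∑ c ∈ range q, f c * ∑ m ∈ (Icc 1 n).filter (fun m => m ≡ c [MOD q]), Λ m := by
  rw [← sum_fiberwise_of_maps_to (s := Icc 1 n) (t := range q) (g := fun m => m % q)
    (fun m _ => mem_range.2 (Nat.mod_lt _ hq))]
  apply sum_congr rfl
  intro c hc
  rw [mem_range] at hc
  rw [mul_sum]
  apply sum_congr
  · ext m
    simp only [mem_filter, Nat.ModEq, Nat.mod_eq_of_lt hc]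
  · intro m hm
    rw [mem_filter] at hm
    have : m % q = c := by
      have := hm.2
      unfold Nat.ModEq at this
      rw [Nat.mod_eq_of_lt hc] at this
      exact this
    rw [hf m, this, mul_comm]

/-- the sum from equidistribution in the classes -/
lemma sum_equi (Λ f : ℕ → ℝ) (q n : ℕ) (hq : 1 ≤ q) (hf : ∀ m, f m = f (m % q))
    (hf1 : ∀ m, |f m| ≤ 1) (δ M : ℝ)
    (h : ∀ c, |∑ m ∈ (Icc 1 n).filter (fun m => m ≡ c [MOD q]), Λ m -
      (if c.Coprime q then M else 0)| ≤ δ) :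
    |∑ m ∈ Icc 1 n, Λ m * f m - M * ∑ c ∈ (range q).filter (fun c => c.Coprime q), f c| ≤
      q * δ := by
  rw [sum_classes Λ f q n hq hf, sum_filter, mul_sum, ← sum_sub_distrib]
  refine (abs_sum_le_sum_abs _ _).trans ?_
  have h1 : ∀ c ∈ range q, |f c * ∑ m ∈ (Icc 1 n).filter (fun m => m ≡ c [MOD q]), Λ m -
      M * (if c.Coprime q then f c else 0)| ≤ δ := by
    intro c _
    have h2 : f c * ∑ m ∈ (Icc 1 n).filter (fun m => m ≡ c [MOD q]), Λ m -
      M * (if c.Coprime q then f c else 0) = f c *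
      (∑ m ∈ (Icc 1 n).filter (fun m => m ≡ c [MOD q]), Λ m - (if c.Coprime q then M else 0)) := by
      split_ifs <;> ring
    rw [h2, abs_mul]
    have h3 := h c
    have h4 := hf1 c
    have h5 := abs_nonneg (∑ m ∈ (Icc 1 n).filter (fun m => m ≡ c [MOD q]), Λ m -
      (if c.Coprime q then M else 0))
    nlinarith [abs_nonneg (f c)]
  refine (sum_le_sum h1).trans ?_
  rw [sum_const, card_range, nsmul_eq_mul]

/-- there is a class with symbol `-1` -/
lemma exists_neg (d : ℕ) (hd : 1 < d) (hsq : Squarefree d) (h6 : d.Coprime 6) :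
    ∃ a : ℕ, a % 24 = 1 ∧ jacobiSym (a : ℤ) d = -1 := by
  obtain ⟨p, hp, hpd⟩ := Nat.exists_prime_and_dvd (by omega : d ≠ 1)
  obtain ⟨e, rfl⟩ := hpd
  have : Fact p.Prime := ⟨hp⟩
  have hpe : p.Coprime e := Nat.coprime_of_squarefree_mul hsq
  have hp6 : p.Coprime 6 := Nat.Coprime.coprime_mul_right h6
  have hp24 : p.Coprime 24 := by
    have : p.Coprime (6 * 6) := hp6.mul_right hp6
    exact Nat.Coprime.coprime_dvd_right (by norm_num : 24 ∣ 24 * 3) (by
      have h1 : p.Coprime (6 * 6 * 6) := this.mul_right hp6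
      exact Nat.Coprime.coprime_dvd_right (by norm_num) h1)
  have hp2 : p ≠ 2 := by
    rintro rfl
    norm_num at hp6
  have hne : ringChar (ZMod p) ≠ 2 := by
    rw [ZMod.ringChar_zmod_n]
    exact hp2
  obtain ⟨r, hr⟩ := FiniteField.exists_nonsquare hne
  have hc : p.Coprime (24 * e) := hp24.mul_right hpe
  obtain ⟨a, ha1, ha2⟩ := Nat.chineseRemainder hc r.val 1
  have he0 : e ≠ 0 := by
    rintro rfl
    simp at hd
  have : NeZero e := ⟨he0⟩
  have : NeZero p := ⟨hp.ne_zero⟩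
  refine ⟨a, ?_, ?_⟩
  · have : a ≡ 1 [MOD 24] := ha2.of_dvd (Dvd.intro _ rfl)
    exact this
  · rw [jacobiSym.mul_right]
    have h1 : jacobiSym (a : ℤ) e = 1 := by
      have h2 : a ≡ 1 [MOD e] := ha2.of_dvd (Dvd.intro_left _ rfl)
      rw [jacobiSym.mod_left, show (a : ℤ) % (e : ℤ) = (1 : ℤ) % e from by
        have := (Int.natCast_modEq_iff.2 h2)
        exact_mod_cast this, ← jacobiSym.mod_left, jacobiSym.one_left]
    have h3 : jacobiSym (a : ℤ) p = -1 := by
      rw [← jacobiSym.legendreSym.to_jacobiSym, legendreSym.eq_neg_one_iff]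
      have h4 : ((a : ℤ) : ZMod p) = r := by
        have h5 : (a : ZMod p) = ((r.val : ℕ) : ZMod p) := (ZMod.natCast_eq_natCast_iff _ _ _).2 ha1
        rw [ZMod.natCast_zmod_val] at h5
        exact_mod_cast h5
      rw [h4]
      exact hr
    rw [h1, h3]
    norm_num

/-- the weight -/
noncomputable def fw (d n : ℕ) : ℝ := if n % 24 = 1 then ((jacobiSym (n : ℤ) d : ℤ) : ℝ) else 0

lemma js_mod (d n : ℕ) (q : ℕ) (h : d ∣ q) : jacobiSym ((n % q : ℕ) : ℤ) d = jacobiSym (n : ℤ) d := by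
  rw [jacobiSym.mod_left ((n % q : ℕ) : ℤ), jacobiSym.mod_left (n : ℤ)]
  congr 1
  push_cast
  exact Int.emod_emod_of_dvd _ (by exact_mod_cast h)

lemma fw_mod (d n : ℕ) : fw d n = fw d (n % (24 * d)) := by
  unfold fw
  rw [js_mod d n (24 * d) (Dvd.intro_left _ rfl), Nat.mod_mod_of_dvd n (Dvd.intro _ rfl)]

lemma fw_abs (d n : ℕ) : |fw d n| ≤ 1 := by
  unfold fw
  split_ifs
  · rcases jacobiSym.trichotomy (n : ℤ) d with h | h | h <;> rw [h] <;> norm_num
  · norm_num

/-- the sum over the classes is zero -/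
lemma fw_sum (d : ℕ) (hd : 1 < d) (hsq : Squarefree d) (h6 : d.Coprime 6) :
    ∑ c ∈ (range (24 * d)).filter (fun c => c.Coprime (24 * d)), fw d c = 0 := by
  obtain ⟨a, ha, hJ⟩ := exists_neg d hd hsq h6
  have hd0 : d ≠ 0 := by omega
  have hac : a.Coprime (24 * d) := by
    apply Nat.Coprime.mul_right
    · have : Nat.gcd a 24 = Nat.gcd (a % 24) 24 := by
        rw [Nat.gcd_comm, Nat.gcd_rec]
      unfold Nat.Coprime
      rw [this, ha]
      norm_num
    · have : NeZero d := ⟨hd0⟩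
      by_contra hc
      have : jacobiSym (a : ℤ) d = 0 := by
        rw [jacobiSym.eq_zero_iff]
        refine ⟨hd0, ?_⟩
        rw [Int.gcd_natCast_natCast]
        exact hc
      rw [this] at hJ
      norm_num at hJ
  set S := ∑ c ∈ (range (24 * d)).filter (fun c => c.Coprime (24 * d)), fw d c with hS
  have hq : 0 < 24 * d := by omega
  have key : S = -S := by
    have h1 : S = ∑ c ∈ (range (24 * d)).filter (fun c => c.Coprime (24 * d)),
        fw d ((a * c) % (24 * d)) := by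
      rw [hS]
      symm
      have hmaps : ∀ c ∈ (range (24 * d)).filter (fun c => c.Coprime (24 * d)),
          (a * c) % (24 * d) ∈ (range (24 * d)).filter (fun c => c.Coprime (24 * d)) := by
        intro c hc
        rw [mem_filter, mem_range] at hc ⊢
        refine ⟨Nat.mod_lt _ hq, ?_⟩
        have h2 : (a * c).Coprime (24 * d) := hac.mul_left hc.2
        unfold Nat.Coprime at h2 ⊢
        rw [← Nat.gcd_rec]
        exact (Nat.gcd_comm _ _).trans h2
      have hinj : Set.InjOn (fun c => (a * c) % (24 * d))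
          (((range (24 * d)).filter (fun c => c.Coprime (24 * d)) : Finset ℕ) : Set ℕ) := by
        intro c hc c' hc' h
        rw [mem_coe, mem_filter, mem_range] at hc hc'
        have h2 : c ≡ c' [MOD 24 * d] := Nat.ModEq.cancel_left_of_coprime
          (by rw [Nat.gcd_comm]; exact hac) h
        unfold Nat.ModEq at h2
        rw [Nat.mod_eq_of_lt hc.1, Nat.mod_eq_of_lt hc'.1] at h2
        exact h2
      refine sum_nbij (fun c => (a * c) % (24 * d)) hmaps hinj ?_ (fun c _ => rfl)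
      exact surjOn_of_injOn_of_card_le _ (fun c hc => hmaps c hc) hinj le_rfl
    refine h1.trans ?_
    rw [hS, ← sum_neg_distrib]
    apply sum_congr rfl
    intro c _
    rw [← fw_mod]
    unfold fw
    have h3 : (a * c) % 24 = c % 24 := by
      rw [Nat.mul_mod, ha, one_mul, Nat.mod_mod]
    rw [h3]
    split_ifs
    · push_cast
      rw [jacobiSym.mul_left, hJ]
      push_cast
      ring
    · norm_num
  linarith

end Pool.Agent.L0h64.RZ
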