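import Pool.Agent.L0h64.RZ.EqwA
import Pool.Agent.L0h94.RZ.Defs
import Pool.Agent.H373R2.T7.LamMaj

/-!
# Project RZ, module EQW: Siegel-Walfisz
-/

set_option autoImplicit false

namespace Pool.Agent.L0h64.RZ

open Finset Pool.Agent.L0h94.RZ Pool.Agent.W262.RK Filter

lemma lq_close (f : ℕ → ℝ) (hf1 : ∀ m, |f m| ≤ 1) (n : ℕ) (hn : 1 ≤ n) :
    |∑ m ∈ Icc 1 n, ArithmeticFunction.vonMangoldt m * f m - th f n| ≤
      2 * √(n : ℝ) * Real.log n := by
  classical
  have h1 := Chebyshev.psi_sub_theta_le (x := (n : ℝ)) (by exact_mod_cast hn)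
  rw [Chebyshev.psi_sub_theta_eq_sum_not_prime, Nat.floor_natCast, sum_filter] at h1
  refine le_trans ?_ h1
  unfold th
  rw [← sum_sub_distrib]
  refine (abs_sum_le_sum_abs _ _).trans ?_
  have h2 : Icc 1 n = Ioc 0 n := by
    ext k
    rw [mem_Icc, mem_Ioc]
    omega
  rw [h2]
  apply sum_le_sum
  intro k _
  unfold lq
  have h0 : 0 ≤ ArithmeticFunction.vonMangoldt k := ArithmeticFunction.vonMangoldt_nonneg
  by_cases hp : k.Prime
  · simp [hp, ArithmeticFunction.vonMangoldt_apply_prime hp]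
  · simp only [hp, if_false, zero_mul, sub_zero, not_false_eq_true, if_true]
    rw [abs_mul, abs_of_nonneg h0]
    have := hf1 k
    nlinarith [abs_nonneg (f k)]

lemma ev_small (ε : ℝ) (hε : 0 < ε) (B : ℝ) : ∃ N0 : ℕ, 1 ≤ N0 ∧ ∀ n : ℕ, N0 ≤ n →
    B ≤ Real.log n ∧ 2 * √(n : ℝ) * Real.log n ≤ ε * n := by
  have h1 : ∀ᶠ n : ℕ in atTop, B ≤ Real.log n :=
    (Real.tendsto_log_atTop.comp tendsto_natCast_atTop_atTop).eventually_ge_atTop B
  have h2 : ∀ᶠ n : ℕ in atTop, ‖Real.log n‖ ≤ (ε / 2) * ‖(n : ℝ) ^ (1 / 2 : ℝ)‖ :=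
    tendsto_natCast_atTop_atTop.eventually
      ((isLittleO_log_rpow_atTop (by norm_num : (0 : ℝ) < 1 / 2)).def (by positivity))
  obtain ⟨N, hN⟩ := eventually_atTop.1 (h1.and h2)
  refine ⟨max N 1, le_max_right _ _, fun n hn => ?_⟩
  obtain ⟨a1, a2⟩ := hN n (le_trans (le_max_left _ _) hn)
  refine ⟨a1, ?_⟩
  have h0 : (0 : ℝ) ≤ n := Nat.cast_nonneg n
  rw [← Real.sqrt_eq_rpow, Real.norm_of_nonneg (Real.log_natCast_nonneg _),
    Real.norm_of_nonneg (Real.sqrt_nonneg _)] at a2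
  have h3 : √(n : ℝ) * √(n : ℝ) = n := Real.mul_self_sqrt h0
  have h4 := mul_le_mul_of_nonneg_left a2 (by positivity : 0 ≤ 2 * √(n : ℝ))
  refine h4.trans (le_of_eq ?_)
  calc 2 * √(n : ℝ) * (ε / 2 * √(n : ℝ)) = ε * (√(n : ℝ) * √(n : ℝ)) := by ring
    _ = ε * n := by rw [h3]

lemma fw_one_sum : ∑ c ∈ (range (24 * 1)).filter (fun c => c.Coprime (24 * 1)), fw 1 c = 1 := by
  rw [sum_eq_single 1]
  · unfold fw
    norm_num
  · intro c hc h1
    rw [mem_filter, mem_range] at hc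
    unfold fw
    rw [if_neg (by omega)]
  · intro h
    exfalso
    apply h
    rw [mem_filter, mem_range]
    refine ⟨by norm_num, by norm_num⟩

/-- sums of `log p` over the primes with symbols -/
lemma theta (A : ℕ) (ε : ℝ) (hε : 0 < ε) : ∃ N0 : ℕ, ∀ n : ℕ, N0 ≤ n →
    |th (fw 1) n - 1 / 8 * n| ≤ ε * n ∧
    ∀ d : ℕ, 1 < d → Squarefree d → d.Coprime 6 → (d : ℝ) ≤ Real.log n ^ A →
      |th (fw d) n - 0 * n| ≤ ε * n := by
  obtain ⟨N1, h1⟩ := Pool.Agent.H373R2.T7.lam_ap (A + 1) (A + 2)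
  obtain ⟨N2, h20, h2⟩ := ev_small (ε / 2) (by positivity) (24 + 2 / ε)
  refine ⟨max N1 N2, fun n hn => ?_⟩
  have hn1 := le_trans (le_max_left _ _) hn
  have hn2 := le_trans (le_max_right _ _) hn
  obtain ⟨b1, b2⟩ := h2 n hn2
  have hε2 : 0 < 2 / ε := by positivity
  have hL : 24 ≤ Real.log n := by linarith
  have hL0 : 0 < Real.log n := by linarith
  have hn0 : (0 : ℝ) ≤ n := Nat.cast_nonneg n
  have key : ∀ d : ℕ, 1 ≤ d → (d : ℝ) ≤ Real.log n ^ A →
      |th (fw d) n - (n : ℝ) / (Nat.totient (24 * d) : ℝ) *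
        ∑ c ∈ (range (24 * d)).filter (fun c => c.Coprime (24 * d)), fw d c| ≤ ε * n := by
    intro d hd hdA
    have hq : ((24 * d : ℕ) : ℝ) ≤ Real.log n ^ (A + 1) := by
      push_cast
      rw [pow_succ]
      have : (0 : ℝ) ≤ Real.log n ^ A := by positivity
      nlinarith
    have c1 := sum_equi (fun m => ArithmeticFunction.vonMangoldt m) (fw d) (24 * d) n (by omega)
      (fw_mod d) (fw_abs d) (n / Real.log n ^ (A + 2)) (n / (Nat.totient (24 * d) : ℝ))
      (fun c => h1 n hn1 (24 * d) (by omega) hq c n le_rfl)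
    have c2 := lq_close (fw d) (fw_abs d) n (le_trans h20 hn2)
    have c3 : ((24 * d : ℕ) : ℝ) * (n / Real.log n ^ (A + 2)) ≤ ε / 2 * n := by
      have d1 : ((24 * d : ℕ) : ℝ) * (n / Real.log n ^ (A + 2)) ≤
          Real.log n ^ (A + 1) * (n / Real.log n ^ (A + 2)) :=
        mul_le_mul_of_nonneg_right hq (by positivity)
      refine d1.trans ?_
      have d2 : Real.log n ^ (A + 1) * (n / Real.log n ^ (A + 2)) = n / Real.log n := by
        rw [show A + 2 = (A + 1) + 1 by ring, pow_succ (Real.log n) (A + 1)]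
        field_simp
      rw [d2, div_le_iff₀ hL0]
      have d3 : 2 / ε ≤ Real.log n := by linarith
      rw [div_le_iff₀ hε] at d3
      nlinarith
    have c4 : th (fw d) n - (n : ℝ) / (Nat.totient (24 * d) : ℝ) *
        ∑ c ∈ (range (24 * d)).filter (fun c => c.Coprime (24 * d)), fw d c =
        (∑ m ∈ Icc 1 n, ArithmeticFunction.vonMangoldt m * fw d m -
          (n : ℝ) / (Nat.totient (24 * d) : ℝ) *
          ∑ c ∈ (range (24 * d)).filter (fun c => c.Coprime (24 * d)), fw d c) -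
        (∑ m ∈ Icc 1 n, ArithmeticFunction.vonMangoldt m * fw d m - th (fw d) n) := by ring
    rw [c4]
    refine (abs_sub _ _).trans ?_
    linarith
  constructor
  · have k1 := key 1 le_rfl (by
      rw [Nat.cast_one]
      exact one_le_pow₀ (by linarith))
    rw [fw_one_sum, mul_one, show Nat.totient (24 * 1) = 8 by decide] at k1
    refine le_trans (le_of_eq ?_) k1
    congr 1
    push_cast
    ring
  · intro d hd hsq h6 hdA
    have k1 := key d hd.le hdA
    rw [fw_sum d hd hsq h6] at k1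
    rw [mul_zero] at k1
    rw [zero_mul]
    exact k1

/-- the range -/
lemma ev_range (η : ℝ) (h0 : 0 < η) (A N : ℕ) : ∃ X0 : ℕ, ∀ X : ℕ, X0 ≤ X →
    max 2 N ≤ ⌊(X : ℝ) ^ η⌋₊ ∧ ⌊(X : ℝ) ^ η⌋₊ < ⌊(X : ℝ) ^ (2 * η)⌋₊ ∧
    1000 ≤ η * Real.log X ∧ η / 2 * Real.log X ≤ Real.log (⌊(X : ℝ) ^ η⌋₊ : ℝ) ∧
    Real.log X ^ A ≤ (η / 2 * Real.log X) ^ (A + 1) ∧
    Real.log (⌊(X : ℝ) ^ (2 * η)⌋₊ : ℝ) ≤ 2 * η * Real.log X ∧
    2 * η * Real.log X ≤ Real.log ((⌊(X : ℝ) ^ (2 * η)⌋₊ + 1 : ℕ) : ℝ) ∧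
    Real.log ((⌊(X : ℝ) ^ η⌋₊ + 1 : ℕ) : ℝ) ≤ η * Real.log X + 1 := by
  have h1 : ∀ᶠ X : ℕ in atTop, ((max 4 (N + 1) : ℕ) : ℝ) ≤ (X : ℝ) ^ η :=
    ((tendsto_rpow_atTop h0).comp tendsto_natCast_atTop_atTop).eventually_ge_atTop _
  have h1' : ∀ᶠ X : ℕ in atTop, (2 : ℝ) ≤ (X : ℝ) ^ (η / 2) :=
    ((tendsto_rpow_atTop (by positivity : 0 < η / 2)).comp
      tendsto_natCast_atTop_atTop).eventually_ge_atTop _
  have h2 : ∀ᶠ X : ℕ in atTop, max 1 (max (1000 / η) ((2 / η) ^ (A + 1))) ≤ Real.log X :=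
    (Real.tendsto_log_atTop.comp tendsto_natCast_atTop_atTop).eventually_ge_atTop _
  obtain ⟨X0, hX0⟩ := eventually_atTop.1 (h1.and (h1'.and h2))
  refine ⟨max X0 1, fun X hX => ?_⟩
  obtain ⟨a1, a1', a2⟩ := hX0 X (le_trans (le_max_left _ _) hX)
  have hX1 : 1 ≤ X := le_trans (le_max_right _ _) hX
  have hXr : (0 : ℝ) < X := by exact_mod_cast hX1
  have a3 : 1000 / η ≤ Real.log X := le_trans (le_trans (le_max_left _ _) (le_max_right _ _)) a2
  have a4 : (2 / η) ^ (A + 1) ≤ Real.log X :=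
    le_trans (le_trans (le_max_right _ _) (le_max_right _ _)) a2
  have a5 : 1 ≤ Real.log X := le_trans (le_max_left _ _) a2
  have hp0 : (0 : ℝ) < (X : ℝ) ^ η := Real.rpow_pos_of_pos hXr _
  have hsq : (X : ℝ) ^ (2 * η) = (X : ℝ) ^ η * (X : ℝ) ^ η := by
    rw [two_mul, Real.rpow_add hXr]
  have hhalf : (X : ℝ) ^ η = (X : ℝ) ^ (η / 2) * (X : ℝ) ^ (η / 2) := by
    rw [← Real.rpow_add hXr]
    congr 1
    ring
  have hx4 : (4 : ℝ) ≤ (X : ℝ) ^ η := le_trans (by exact_mod_cast le_max_left _ _) a1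
  have hlogη : Real.log ((X : ℝ) ^ η) = η * Real.log X := Real.log_rpow hXr η
  have hlog2η : Real.log ((X : ℝ) ^ (2 * η)) = 2 * η * Real.log X := Real.log_rpow hXr _
  have hfl : (X : ℝ) ^ η - 1 < (⌊(X : ℝ) ^ η⌋₊ : ℝ) := Nat.sub_one_lt_floor _
  have hfl' : (⌊(X : ℝ) ^ η⌋₊ : ℝ) ≤ (X : ℝ) ^ η := Nat.floor_le hp0.le
  refine ⟨?_, ?_, ?_, ?_, ?_, ?_, ?_, ?_⟩
  · apply Nat.le_floor
    refine le_trans ?_ a1
    norm_cast
    omega
  · have : ⌊(X : ℝ) ^ η⌋₊ + 1 ≤ ⌊(X : ℝ) ^ (2 * η)⌋₊ := by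
      apply Nat.le_floor
      push_cast
      rw [hsq]
      nlinarith
    omega
  · rw [div_le_iff₀ h0] at a3
    linarith
  · have h3 : (X : ℝ) ^ (η / 2) ≤ (⌊(X : ℝ) ^ η⌋₊ : ℝ) := by
      rw [hhalf] at hfl
      have h4 : 2 * (X : ℝ) ^ (η / 2) ≤ (X : ℝ) ^ (η / 2) * (X : ℝ) ^ (η / 2) :=
        mul_le_mul_of_nonneg_right a1' (by linarith)
      rw [← hhalf] at hfl h4
      linarith
    have h4 := Real.log_le_log (by positivity) h3
    rw [Real.log_rpow hXr] at h4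
    exact h4
  · have h3 : (η / 2 * Real.log X) ^ (A + 1) = (η / 2) ^ (A + 1) * Real.log X * Real.log X ^ A := by
      rw [mul_pow, pow_succ (Real.log X)]
      ring
    rw [h3]
    have h4 : 1 ≤ (η / 2) ^ (A + 1) * Real.log X := by
      have h5 := mul_le_mul_of_nonneg_left a4 (by positivity : 0 ≤ (η / 2) ^ (A + 1))
      rw [← mul_pow, show η / 2 * (2 / η) = 1 by field_simp, one_pow] at h5
      exact h5
    have h6 : 0 ≤ Real.log X ^ A := by positivity
    nlinarith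
  · rw [← hlog2η]
    apply Real.log_le_log
    · have : 0 < ⌊(X : ℝ) ^ (2 * η)⌋₊ := by
        apply Nat.floor_pos.2
        rw [hsq]
        nlinarith
      exact_mod_cast this
    · exact Nat.floor_le (by positivity)
  · rw [← hlog2η]
    apply Real.log_le_log (by positivity)
    push_cast
    exact (Nat.lt_floor_add_one _).le
  · have h3 : ((⌊(X : ℝ) ^ η⌋₊ + 1 : ℕ) : ℝ) ≤ (X : ℝ) ^ η * 2 := by
      push_cast
      linarith
    have h4 := Real.log_le_log (by positivity) h3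
    rw [Real.log_mul hp0.ne' (by norm_num), hlogη] at h4
    have := Real.log_two_lt_d9
    linarith

theorem eqw : S_EQW := by
  intro η h0 _ A
  obtain ⟨N, hN⟩ := theta (A + 1) (1 / 4000) (by norm_num)
  obtain ⟨X0, hX0⟩ := ev_range η h0 A N
  refine ⟨X0, fun X hX => ?_⟩
  obtain ⟨r1, r2, r3, r4, r5, r6, r7, r8⟩ := hX0 X hX
  set a := ⌊(X : ℝ) ^ η⌋₊ with ha
  set b := ⌊(X : ℝ) ^ (2 * η)⌋₊ with hb
  set L := Real.log X with hL
  have ha2 : 2 ≤ a := le_trans (le_max_left _ _) r1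
  have haN : N ≤ a := le_trans (le_max_right _ _) r1
  have hηL : 0 < η * L := by linarith
  -- sums of `1 / (n log n)`
  have hsum0 : 0 ≤ ∑ n ∈ Ioc a b, gl n := sum_nonneg fun n _ => gl_nonneg n
  have hup : ∑ n ∈ Ioc a b, gl n ≤ 14 / 10 := by
    obtain ⟨k, hk⟩ : ∃ k, b = a + k := ⟨b - a, by omega⟩
    have h1 := gl_sum_upper a k ha2
    rw [← hk] at h1
    have h2 : Real.log (Real.log b) ≤ Real.log (2 * η * L) :=
      Real.log_le_log (log_pos' (by omega)) r6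
    have h3 : Real.log (η / 2 * L) ≤ Real.log (Real.log a) :=
      Real.log_le_log (by linarith) r4
    have h4 : Real.log (2 * η * L) = Real.log 4 + Real.log (η / 2 * L) := by
      rw [← Real.log_mul (by norm_num) (by linarith)]
      congr 1
      ring
    have h5 : Real.log 4 = 2 * Real.log 2 := by
      rw [show (4 : ℝ) = 2 ^ 2 by norm_num, Real.log_pow]
      norm_num
    have := Real.log_two_lt_d9
    linarith
  have hlo : 692 / 1000 ≤ ∑ n ∈ Ioc a b, gl n := by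
    obtain ⟨k, hk⟩ : ∃ k, b = a + k := ⟨b - a, by omega⟩
    have h1 := gl_sum_lower a k (by omega)
    rw [← hk] at h1
    have h2 : Real.log (2 * η * L) ≤ Real.log (Real.log ((b + 1 : ℕ) : ℝ)) :=
      Real.log_le_log (by linarith) r7
    have h3 : Real.log (Real.log ((a + 1 : ℕ) : ℝ)) ≤ Real.log (η * L + 1) :=
      Real.log_le_log (log_pos' (by omega)) r8
    have h4 : Real.log (2 * η * L) = Real.log 2 + Real.log (η * L) := by
      rw [← Real.log_mul (by norm_num) (by linarith)]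
      congr 1
      ring
    have h5 : Real.log (η * L + 1) - Real.log (η * L) ≤ (η * L + 1 - η * L) / (η * L) :=
      log_sub_le (by linarith) hηL
    have h6 : (η * L + 1 - η * L) / (η * L) ≤ 1 / 1000 := by
      rw [div_le_iff₀ hηL]
      linarith
    have := Real.log_two_gt_d9
    linarith
  have hag : (a : ℝ) * gl (a + 1) ≤ 1 := by
    unfold gl
    have h1 : 1 ≤ Real.log ((a + 1 : ℕ) : ℝ) := by
      have h2 : Real.log a ≤ Real.log ((a + 1 : ℕ) : ℝ) := by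
        apply Real.log_le_log (by positivity)
        push_cast
        linarith
      linarith
    have h3 : (0 : ℝ) < ((a + 1 : ℕ) : ℝ) := by positivity
    rw [mul_one_div, div_le_one (by positivity)]
    have h4 : (a : ℝ) ≤ ((a + 1 : ℕ) : ℝ) := by push_cast; linarith
    nlinarith
  have herr : (1 / 4000 : ℝ) * (∑ n ∈ Ioc a b, gl n + 2 * (a * gl (a + 1))) ≤ 1 / 1000 := by
    linarith
  -- the sum over the range
  have hrg : ∀ d : ℕ, ∑ l ∈ (Ioc a b).filter Nat.Prime, fw d l / l =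
      ∑ l ∈ rg X η, Jr l d / (l : ℝ) := by
    intro d
    unfold rg
    rw [← ha, ← hb, sum_filter, sum_filter]
    apply sum_congr rfl
    intro l _
    unfold fw Jr
    by_cases h1 : l.Prime <;> by_cases h2 : l % 24 = 1 <;> simp [h1, h2]
  constructor
  · have h1 := recip (fw 1) (1 / 8) (1 / 4000) a b ha2 r2
      (fun n hn _ => (hN n (haN.trans hn)).1)
    rw [hrg 1] at h1
    have h2 := (abs_le.1 (h1.trans herr)).1
    have h3 : ∑ l ∈ rg X η, Jr l 1 / (l : ℝ) = ∑ l ∈ rg X η, 1 / (l : ℝ) := by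
      apply sum_congr rfl
      intro l _
      unfold Jr
      rw [jacobiSym.one_right]
      norm_num
    rw [h3] at h2
    linarith
  · intro d hd hsq h6 hdA
    have h1 := recip (fw d) 0 (1 / 4000) a b ha2 r2 (fun n hn _ => by
      have hlogn : η / 2 * L ≤ Real.log n := by
        refine r4.trans (Real.log_le_log ?_ ?_)
        · have : 0 < a := by omega
          exact_mod_cast this
        · exact_mod_cast hn
      refine (hN n (haN.trans hn)).2 d hd hsq h6 ?_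
      refine (hdA.trans r5).trans ?_
      exact pow_le_pow_left₀ (by linarith) hlogn _)
    rw [hrg d, zero_mul, sub_zero] at h1
    exact h1.trans herr

end Pool.Agent.L0h64.RZ
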